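import Pool.Agent.Y466.LM.Defs
import Pool.Agent.Y466.FT.Base
import Pool.Agent.Y466.RW.Knot

/-!
# Functions of finite degree on groups
-/

set_option autoImplicit false

set_option linter.unusedSectionVars false

namespace Pool.Agent.Y466.LM

open Pool.Agent.Y466.FT Pool.Agent.Y466.RW

section
variable {G A : Type} [Group G] [AddCommGroup A]

/-- All alternating sums of length `n` vanish. -/
def AltZ (n : ℕ) (f : G → A) : Prop := ∀ (l : List G) (φ : G), l.length = n → alt f l φ = 0

theorem alt_left (f : G → A) (g : G) (l : List G) (φ : G) :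
    alt (fun u => f (g * u)) l φ = alt f l (g * φ) := by
  induction l generalizing φ with
  | nil => rfl
  | cons t l ih =>
    show alt _ l φ - alt _ l (φ * t) = alt f l (g * φ) - alt f l (g * φ * t)
    rw [ih, ih, mul_assoc]

theorem alt_sub (f f' : G → A) (l : List G) (φ : G) :
    alt (fun u => f u - f' u) l φ = alt f l φ - alt f' l φ := by
  induction l generalizing φ with
  | nil => rfl
  | cons t l ih =>
    show alt _ l φ - alt _ l (φ * t) = (alt f l φ - alt f l (φ * t)) -
      (alt f' l φ - alt f' l (φ * t))
    rw [ih, ih]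
    abel

theorem AltZ.left {n : ℕ} {f : G → A} (h : AltZ n f) (g : G) : AltZ n (fun u => f (g * u)) := by
  intro l φ hl
  rw [alt_left]
  exact h l _ hl

theorem AltZ.diff {n : ℕ} {f : G → A} (h : AltZ (n + 1) f) (g : G) :
    AltZ n (fun u => f (g * u) - f u) := by
  intro l φ hl
  rw [alt_sub, alt_left]
  have h1 : alt f l φ - alt f l (φ * (φ⁻¹ * g * φ)) = 0 :=
    h ((φ⁻¹ * g * φ) :: l) φ (by simp [hl])
  have e : φ * (φ⁻¹ * g * φ) = g * φ := by group
  rw [e] at h1
  rw [← neg_sub, h1, neg_zero]

/-- The alternating sum over the marked elements of a word. -/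
def gm : List (G × Bool) → (G → A) → A
  | [], f => f 1
  | (g, false) :: w, f => gm w (fun u => f (g * u))
  | (g, true) :: w, f => gm w (fun u => f (g * u)) - gm w f

/-- The number of marks. -/
def nk (w : List (G × Bool)) : ℕ := w.countP Prod.snd

theorem nk_append (x y : List (G × Bool)) : nk (x ++ y) = nk x + nk y := List.countP_append

theorem gm_sub (w : List (G × Bool)) (f f' : G → A) :
    gm w (fun u => f u - f' u) = gm w f - gm w f' := by
  induction w generalizing f f' with
  | nil => rfl
  | cons p w ih =>
    obtain ⟨g, b⟩ := p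
    cases b with
    | true =>
      show gm w _ - gm w _ = (gm w _ - gm w _) - (gm w _ - gm w _)
      rw [ih, ih]
      abel
    | false =>
      show gm w _ = gm w _ - gm w _
      rw [ih]

theorem gm_zero (w : List (G × Bool)) {f : G → A} (h : AltZ (nk w) f) : gm w f = 0 := by
  induction w generalizing f with
  | nil => exact h [] 1 rfl
  | cons p w ih =>
    obtain ⟨g, b⟩ := p
    cases b with
    | true =>
      have e : nk ((g, true) :: w) = nk w + 1 := by
        unfold nk
        rw [List.countP_cons]
        simp
      rw [e] at h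
      show gm w _ - gm w _ = 0
      rw [← gm_sub]
      exact ih (h.diff g)
    | false =>
      have e : nk ((g, false) :: w) = nk w := by
        unfold nk
        rw [List.countP_cons]
        simp
      rw [e] at h
      exact ih (h.left g)

theorem gm_append (x y : List (G × Bool)) (f : G → A) :
    gm (x ++ y) f = gm x (fun a => gm y (fun b => f (a * b))) := by
  induction x generalizing f with
  | nil => simp [gm]
  | cons p x ih =>
    obtain ⟨g, b⟩ := p
    cases b with
    | true =>
      show gm (x ++ y) (fun u => f (g * u)) - gm (x ++ y) f = gm x _ - gm x _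
      rw [ih, ih]
      simp only [mul_assoc]
    | false =>
      show gm (x ++ y) (fun u => f (g * u)) = gm x _
      rw [ih]
      simp only [mul_assoc]

theorem gm_mark (x y : List (G × Bool)) (t : G) (f : G → A) :
    gm (x ++ [(t, true)] ++ y) f = gm (x ++ [(t, false)] ++ y) f - gm (x ++ y) f := by
  rw [List.append_assoc, List.append_assoc, gm_append, gm_append, gm_append, ← gm_sub]
  rfl

theorem gm_plain (x : List (G × Bool)) (h : nk x = 0) (f : G → A) :
    gm x f = f (x.map Prod.fst).prod := by
  induction x generalizing f with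
  | nil => rfl
  | cons p x ih =>
    obtain ⟨g, b⟩ := p
    unfold nk at h
    rw [List.countP_cons] at h
    cases b with
    | true => simp at h
    | false =>
      show gm x _ = _
      rw [ih (by unfold nk; simpa using h)]
      simp

end

/-! ### Words at several places -/

section
variable {G A : Type} [Group G] [AddCommGroup A] {k : ℕ} (u₀ : G) (u : Fin k → G)

/-- The pairs `(t, 1)` at one place. -/
def EG (G : Type) (k : ℕ) : Set ((Fin k → FreeMonoid G) × (Fin k → FreeMonoid G)) :=
  {e | ∃ (j : Fin k) (t : G), e = (Pi.mulSingle j (FreeMonoid.of t), 1)}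

/-- The relations of the group at one place. -/
def RG (G : Type) [Group G] (k : ℕ) : Set ((Fin k → FreeMonoid G) × (Fin k → FreeMonoid G)) :=
  {r | ∃ (j : Fin k) (l l' : FreeMonoid G), l.toList.prod = l'.toList.prod ∧
    r = (Pi.mulSingle j l, Pi.mulSingle j l')}

/-- The word. -/
def gw (p : Fin k → FreeMonoid G) : List G := plug [u₀] (fun i => [u i]) id p

/-- The word with marks. -/
def mw (p : Fin k → FreeMonoid (G × Bool)) : List (G × Bool) :=
  plug [(u₀, false)] (fun i => [(u i, false)]) id p

/-- The embedding. -/
def em : (Fin k → FreeMonoid G) →* (Fin k → FreeMonoid (G × Bool)) :=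
  MonoidHom.piMap fun _ => FreeMonoid.map fun l => (l, false)

theorem mw_em (p : Fin k → FreeMonoid G) :
    mw u₀ u (em p) = (gw u₀ u p).map fun x => (x, false) := by
  unfold mw gw plug
  rw [List.map_append, List.map_flatten, List.map_ofFn]
  congr 3
  funext i
  show ((em p) i).toList.map id ++ _ = List.map _ (_ ++ _)
  rw [List.map_append]
  congr 1
  show (FreeMonoid.map _ (p i)).toList.map id = _
  rw [FreeMonoid.toList_map, List.map_id, List.map_id]

theorem em_single (j : Fin k) (l : G) :
    em (Pi.mulSingle j (FreeMonoid.of l)) = Pi.mulSingle j (FreeMonoid.of (l, false)) := by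
  funext i
  by_cases h : i = j
  · subst h
    show FreeMonoid.map _ ((Pi.mulSingle i (FreeMonoid.of l) : Fin k → FreeMonoid G) i) = _
    rw [Pi.mulSingle_eq_same, Pi.mulSingle_eq_same]
    rfl
  · show FreeMonoid.map _ ((Pi.mulSingle j (FreeMonoid.of l) : Fin k → FreeMonoid G) i) = _
    rw [Pi.mulSingle_eq_of_ne h, Pi.mulSingle_eq_of_ne h]
    rfl

theorem em_mul (a b : Fin k → FreeMonoid G) : em (a * b) = em a * em b := map_mul em a b

theorem dg_gm {n : ℕ} {f : G → A} (h : AltZ n f) (r : ℕ) :
    ∀ P : Fin k → FreeMonoid (G × Bool), (∀ p, nk (mw u₀ u (P * em p)) + r = n) →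
      Dg (EG G k) r (fun p => gm (mw u₀ u (P * em p)) f) := by
  induction r with
  | zero =>
    intro P hP p
    refine gm_zero _ ?_
    have := hP p
    rw [add_zero] at this
    rw [this]
    exact h
  | succ r ih =>
    rintro P hP e ⟨j, t, rfl⟩ a
    have key : ∀ p, gm (mw u₀ u (P * em (a * Pi.mulSingle j (FreeMonoid.of t) * p))) f -
        gm (mw u₀ u (P * em (a * 1 * p))) f =
        gm (mw u₀ u (P * em a * Pi.mulSingle j (FreeMonoid.of (t, true)) * em p)) f := by
      intro p
      rw [mul_one, em_mul, em_mul, em_mul, em_single, ← mul_assoc, ← mul_assoc, ← mul_assoc]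
      obtain ⟨y, hy⟩ := plug_single [(u₀, false)] (fun i => [(u i, false)]) id (P * em a) (em p) j
      unfold mw
      have h0 := hy 1
      rw [Pi.mulSingle_one, mul_one] at h0
      rw [hy, hy, h0]
      have h1 := gm_mark (above [(u₀, false)] (fun i => [(u i, false)]) id (P * em a * em p) j ++
        List.map id ((P * em a) j).toList) y t f
      simp only [FreeMonoid.toList_of, FreeMonoid.toList_one, List.map_cons, List.map_nil, id,
        List.append_nil]
      exact h1.symm
    have hP' : ∀ p, nk (mw u₀ u (P * em a *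
        Pi.mulSingle j (FreeMonoid.of (t, true)) * em p)) + r = n := ?_
    · have h9 := ih _ hP'
      simp only [← key] at h9
      exact h9
    intro p
    have h1 := hP (a * p)
    rw [em_mul, ← mul_assoc] at h1
    obtain ⟨y, hy⟩ := plug_single [(u₀, false)] (fun i => [(u i, false)]) id (P * em a) (em p) j
    have h2 := hy (FreeMonoid.of (t, true))
    have h3 := hy 1
    rw [Pi.mulSingle_one, mul_one] at h3
    have e2 := congrArg nk h2
    have e3 := congrArg nk h3
    rw [nk_append, nk_append] at e2 e3
    have e4 : nk ((FreeMonoid.of (t, true) : FreeMonoid (G × Bool)).toList.map id) = 1 := rfl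
    have e5 : nk ((1 : FreeMonoid (G × Bool)).toList.map id) = 0 := rfl
    rw [e4] at e2
    rw [e5] at e3
    unfold mw at h1 ⊢
    omega

/-- The function of the words at the places. -/
def fw (f : G → A) (p : Fin k → FreeMonoid G) : A := f (gw u₀ u p).prod

theorem dg_fw {n : ℕ} {f : G → A} (h : AltZ n f) : Dg (EG G k) n (fw u₀ u f) := by
  have h0 : ∀ w : List G, nk (w.map fun x => (x, false)) = 0 := by
    intro w
    unfold nk
    rw [List.countP_map, List.countP_eq_zero]
    intro a _
    simp
  have h1 := dg_gm u₀ u h n 1 (fun p => by rw [one_mul, mw_em, h0, zero_add])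
  refine h1.congr fun p => ?_
  rw [one_mul, mw_em, gm_plain _ (h0 _), List.map_map]
  unfold fw
  congr 2
  exact List.map_id _

theorem iv_fw (f : G → A) : Iv (RG G k) (fw u₀ u f) := by
  rintro r ⟨j, l, l', h, rfl⟩ a b
  obtain ⟨y, hy⟩ := plug_single [u₀] (fun i => [u i]) id a b j
  unfold fw gw
  show f (plug _ _ _ (a * Pi.mulSingle j l * b)).prod = f (plug _ _ _ (a * Pi.mulSingle j l' * b)).prod
  rw [hy, hy]
  simp only [List.prod_append, List.map_id, h]

end

/-! ### Powers -/

section
variable {G A : Type} [Group G] [AddCommGroup A] {k : ℕ}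

/-- The powers at all places. -/
def gp (t : Fin k → G) (q : Fin k → ℤ) : Fin k → FreeMonoid G :=
  fun j => FreeMonoid.of (t j ^ q j)

theorem gp_step (t : Fin k → G) (q : Fin k → ℤ) (j : Fin k) {φ : (Fin k → FreeMonoid G) → A}
    (hi : Iv (RG G k) φ) :
    φ (Pi.mulSingle j (FreeMonoid.of (t j)) * gp t q) = φ (gp t (q + Pi.single j 1)) := by
  have e1 : Pi.mulSingle j (FreeMonoid.of (t j)) * gp t q = 1 *
      Pi.mulSingle j (FreeMonoid.of (t j) * FreeMonoid.of (t j ^ q j)) *
      Function.update (gp t q) j 1 := by
    funext i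
    by_cases h : i = j
    · subst h; simp [gp]
    · simp [gp, h]
  have e2 : gp t (q + Pi.single j 1) = 1 * Pi.mulSingle j (FreeMonoid.of (t j ^ (q j + 1))) *
      Function.update (gp t q) j 1 := by
    funext i
    by_cases h : i = j
    · subst h; simp [gp]
    · simp [gp, h]
  rw [e1, e2]
  refine hi (_, _) ⟨j, _, _, ?_, rfl⟩ 1 _
  show t j * (t j ^ q j * 1) = t j ^ (q j + 1) * 1
  rw [mul_one, mul_one, zpow_add, zpow_one, ← zpow_one_add, ← zpow_add_one, add_comm]

theorem pd_gp {n : ℕ} {φ : (Fin k → FreeMonoid G) → A} (hd : Dg (EG G k) n φ)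
    (hi : Iv (RG G k) φ) (t : Fin k → G) : PD n (fun q => φ (gp t q)) := by
  induction n generalizing φ with
  | zero => intro q; exact hd _
  | succ n ih =>
    intro j
    have hp : Pu (RG G k) (EG G k) (Pi.mulSingle j (FreeMonoid.of (t j))) :=
      fun c _ hE => hE _ ⟨j, t j, rfl⟩
    have h1 := ih (hd.tr hi hp) (hi.tr _)
    have e : dl j (fun q => φ (gp t q)) =
        fun q => Tr (Pi.mulSingle j (FreeMonoid.of (t j))) φ (gp t q) := by
      funext q
      show φ _ - φ _ = φ _ - φ _
      rw [gp_step t q j hi]
    rw [e]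
    exact h1

theorem fam_eq (u₀ : G) (t u : Fin k → G) (q : Fin k → ℤ) :
    fam u₀ t u q = (gw u₀ u (gp t q)).prod := by
  unfold fam gw plug
  rw [List.prod_append, List.prod_singleton, List.prod_flatten, List.map_ofFn]
  congr 3
  funext i
  show t i ^ q i * u i = ([t i ^ q i] ++ [u i]).prod
  simp

theorem pd_fam {n : ℕ} {f : G → A} (h : AltZ n f) (u₀ : G) (t u : Fin k → G) :
    PD n (fun q => f (fam u₀ t u q)) := by
  have := pd_gp (dg_fw u₀ u h) (iv_fw u₀ u f) t
  simp only [fam_eq]
  exact this

end

/-! ### Random words -/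

section
variable {G A : Type} [Group G] [AddCommGroup A] {k : ℕ} {L : Type}

theorem pu_all {R E : Set ((Fin k → FreeMonoid G) × (Fin k → FreeMonoid G))}
    (p : Fin k → FreeMonoid G) (h : ∀ j, Pu R E (Pi.mulSingle j (p j))) : Pu R E p := by
  classical
  have key : ∀ s : Finset (Fin k), Pu R E (fun i => if i ∈ s then p i else 1) := by
    intro s
    induction s using Finset.induction_on with
    | empty =>
      have e : (fun i => if i ∈ (∅ : Finset (Fin k)) then p i else 1) = 1 := by
        funext i
        simp
      rw [e]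
      exact pu_one
    | insert j s hj ih =>
      have e : (fun i => if i ∈ insert j s then p i else 1) =
          Pi.mulSingle j (p j) * (fun i => if i ∈ s then p i else 1) := by
        funext i
        rw [Pi.mul_apply]
        by_cases hij : i = j
        · subst hij; simp [hj]
        · rw [Pi.mulSingle_eq_of_ne hij, one_mul]
          simp [hij]
      rw [e]
      exact pu_mul (h j) ih
  simpa using key Finset.univ

/-- The elements at the places. -/
def gh (x : L → Fin k → G) : FreeMonoid L →* (Fin k → FreeMonoid G) :=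
  FreeMonoid.lift fun s i => FreeMonoid.of (x s i)

/-- The element of a word. -/
def wk (u₀ : G) (u : Fin k → G) (x : L → Fin k → G) (w : FreeMonoid L) : G :=
  (gw u₀ u (gh x w)).prod

theorem dg_wk {n : ℕ} {f : G → A} (h : AltZ n f) (u₀ : G) (u : Fin k → G) (x : L → Fin k → G) :
    Dg (LE L) n (fun w => f (wk u₀ u x w)) := by
  refine dg_comp (dg_fw u₀ u h) (iv_fw u₀ u f) (gh x) fun s => pu_all _ fun j => ?_
  have e : gh x (FreeMonoid.of s) j = FreeMonoid.of (x s j) := by
    unfold gh
    rw [FreeMonoid.lift_eval_of]
  rw [e]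
  exact fun c _ hE => hE _ ⟨j, _, rfl⟩

theorem walk_eq (u₀ : G) (u : Fin k → G) (x : L → Fin k → G) {N : ℕ} (w : Fin N → Option L) :
    walk u₀ u x w = wk u₀ u x (ev w) := by
  unfold walk wk gw plug
  rw [List.prod_append, List.prod_singleton, List.prod_flatten, List.map_ofFn]
  congr 3
  funext i
  show _ = (List.map id (gh x (ev w) i).toList ++ [u i]).prod
  rw [List.prod_append, List.prod_singleton, List.map_id]
  congr 1
  have e : gh x (ev w) i =
      ((List.ofFn w).map fun o => o.elim 1 fun s => FreeMonoid.of (x s i)).prod := by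
    unfold ev
    rw [map_list_prod]
    have e1 := map_list_prod (Pi.evalMonoidHom (fun _ : Fin k => FreeMonoid G) i)
      (((List.ofFn w).map fun o => Option.elim o 1 FreeMonoid.of).map (gh x))
    refine e1.trans ?_
    rw [List.map_map, List.map_map]
    congr 1
    refine List.map_congr_left fun o _ => ?_
    cases o with
    | none =>
      show (gh x 1) i = 1
      rw [map_one]; rfl
    | some s =>
      show (gh x (FreeMonoid.of s)) i = FreeMonoid.of (x s i)
      unfold gh
      rw [FreeMonoid.lift_eval_of]
  rw [e, FreeMonoid.toList_prod, List.prod_flatten, List.map_map, List.map_map, List.map_ofFn]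
  congr 2
  funext j
  show _ = (FreeMonoid.toList (Option.elim (w j) 1 fun s => FreeMonoid.of (x s i))).prod
  cases w j with
  | none => rfl
  | some s => simp

end

end Pool.Agent.Y466.LM
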