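import Mathlib

/-!
# Integral homology spheres and their finite type invariants

`Fg g` is the fundamental group of the surface `Σ_{g,1}` of genus `g` with one boundary component, a
free group on `a_i`, `b_i`, with boundary curve `ζ = [a_1, b_1] ⋯ [a_g, b_g]`.  By the theorem of
Dehn, Nielsen and Baer (Zieschang) the mapping class group of `Σ_{g,1}` is the group of all
automorphisms of `Fg g` which fix `ζ`; its Torelli group `Tor g` consists of those which act trivially
on the homology, and a mapping class extends to the handlebody in which the curves `b_i` (respectively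
`a_i`) bound discs if and only if it preserves the normal closure of the `b_i` (of the `a_i`).

The homology sphere `M_φ` of `φ ∈ Tor g` is the union of the two handlebodies of the standard Heegaard
decomposition of genus `g` of the `3`-sphere, glued by means of `φ`; its fundamental group is the
quotient of `Fg g` by the relations `b_i = 1`, `φ a_i = 1`.  Every integral homology `3`-sphere is
such an `M_φ`, and `M_φ`, `M_ψ` are homeomorphic by an orientation preserving homeomorphism if and
only if `φ` and `ψ` are related by the three relations in the definition of `IsInvariant`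
(Reidemeister, Singer, Morita, Pitsch).
-/

set_option autoImplicit false

namespace Pool.Agent.Y466.LM

/-- The fundamental group of the surface of genus `g` with one boundary component. -/
abbrev Fg (g : ℕ) : Type := FreeGroup (Fin g ⊕ Fin g)

/-- The curves `a_i`. -/
def ga (g : ℕ) (i : Fin g) : Fg g := FreeGroup.of (Sum.inl i)

/-- The curves `b_i`. -/
def gb (g : ℕ) (i : Fin g) : Fg g := FreeGroup.of (Sum.inr i)

/-- The boundary curve `[a_1, b_1] ⋯ [a_g, b_g]`. -/
def zeta (g : ℕ) : Fg g :=
  (List.ofFn fun i => ga g i * gb g i * (ga g i)⁻¹ * (gb g i)⁻¹).prod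

/-- The Torelli group of the surface of genus `g` with one boundary component. -/
def Tor (g : ℕ) : Subgroup (MulAut (Fg g)) where
  carrier := {φ | φ (zeta g) = zeta g ∧ ∀ x, Abelianization.of (φ x) = Abelianization.of x}
  mul_mem' := by
    rintro φ ψ ⟨h1, h2⟩ ⟨h3, h4⟩
    refine ⟨?_, fun x => ?_⟩
    · rw [MulAut.mul_apply, h3, h1]
    · rw [MulAut.mul_apply, h2, h4]
  one_mem' := ⟨rfl, fun _ => rfl⟩
  inv_mem' := by
    rintro φ ⟨h1, h2⟩
    refine ⟨?_, fun x => ?_⟩
    · rw [MulAut.inv_apply, MulEquiv.symm_apply_eq, h1]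
    · have := h2 (φ⁻¹ x)
      rw [MulAut.apply_inv_self] at this
      exact this.symm

/-- The mapping class `φ` extends to the handlebody in which the curves `c i` bound discs. -/
def Extends {g : ℕ} (c : Fin g → Fg g) (φ : MulAut (Fg g)) : Prop :=
  φ (zeta g) = zeta g ∧ (Subgroup.normalClosure (Set.range c)).map φ.toMonoidHom =
    Subgroup.normalClosure (Set.range c)

/-- The inclusion of the surface of genus `g` into the surface of genus `g + 1`. -/
def incl (g : ℕ) : Fg g →* Fg (g + 1) := FreeGroup.map (Sum.map Fin.castSucc Fin.castSucc)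

/-- `ψ` is the extension of `φ` to the surface of genus `g + 1` by the identity. -/
def IsStab {g : ℕ} (φ : MulAut (Fg g)) (ψ : MulAut (Fg (g + 1))) : Prop :=
  (∀ x, ψ (incl g x) = incl g (φ x)) ∧ ψ (ga (g + 1) (Fin.last g)) = ga (g + 1) (Fin.last g) ∧
    ψ (gb (g + 1) (Fin.last g)) = gb (g + 1) (Fin.last g)

/-- `v` is an invariant of integral homology `3`-spheres, `v g φ` is its value at `M_φ`, `φ ∈ Tor g`
(the values for other `φ` have no meaning). -/
def IsInvariant {A : Type} (v : ∀ g : ℕ, MulAut (Fg g) → A) : Prop :=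
  (∀ g, ∀ φ ∈ Tor g, ∀ x ∈ Tor g, Extends (gb g) x → ∀ y ∈ Tor g, Extends (ga g) y →
    v g (x * φ * y) = v g φ) ∧
  (∀ g, ∀ φ ∈ Tor g, ∀ h, Extends (ga g) h → Extends (gb g) h → v g (h * φ * h⁻¹) = v g φ) ∧
  (∀ g, ∀ φ ∈ Tor g, ∀ ψ ∈ Tor (g + 1), IsStab φ ψ → v (g + 1) ψ = v g φ)

/-- Alternating sums: `alt f [t_1, …, t_n] φ = ∑_{I ⊆ {1, …, n}} (-1)^{|I|} f (φ ∏_{i ∈ I} t_i)`. -/
def alt {G A : Type} [Group G] [AddCommGroup A] (f : G → A) : List G → G → A
  | [], φ => f φ
  | t :: l, φ => alt f l φ - alt f l (φ * t)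

/-- `v` is a finite type invariant of order at most `n` of integral homology `3`-spheres: the
alternating sums of its values over surgeries by `n + 1` elements of a Torelli group vanish. -/
def DegreeLE {A : Type} [AddCommGroup A] (n : ℕ) (v : ∀ g : ℕ, MulAut (Fg g) → A) : Prop :=
  ∀ g, ∀ φ ∈ Tor g, ∀ l : List (MulAut (Fg g)), (∀ t ∈ l, t ∈ Tor g) → l.length = n + 1 →
    alt (v g) l φ = 0

/-- Some rational valued finite type invariant of order at most `n` has different values on the
homology spheres `M_φ` and `M_ψ`. -/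
def Separated (n : ℕ) {g g' : ℕ} (φ : MulAut (Fg g)) (ψ : MulAut (Fg g')) : Prop :=
  ∃ v : ∀ g : ℕ, MulAut (Fg g) → ℚ, IsInvariant v ∧ DegreeLE n v ∧ v g φ ≠ v g' ψ

/-- The product `u₀ t_1^{q_1} u_1 ⋯ t_k^{q_k} u_k`. -/
def fam {G : Type} [Group G] {k : ℕ} (u₀ : G) (t u : Fin k → G) (q : Fin k → ℤ) : G :=
  u₀ * (List.ofFn fun i => t i ^ q i * u i).prod

/-- Each letter `s` of an alphabet `L` stands for `k` elements `x s 0, …, x s (k - 1)` of a group, and
`none` stands for the empty letter.  For a word `w = w_1 ⋯ w_N` in the alphabet `L ∪ {∅}`, this is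
the product `u₀ x_0(w) u_0 x_1(w) u_1 ⋯ x_{k-1}(w) u_{k-1}`, `x_i(w) = x_i(w_1) ⋯ x_i(w_N)`. -/
def walk {G L : Type} [Group G] {k : ℕ} (u₀ : G) (u : Fin k → G) (x : L → Fin k → G) {N : ℕ}
    (w : Fin N → Option L) : G :=
  u₀ * (List.ofFn fun i => (List.ofFn fun j => (w j).elim 1 fun s => x s i).prod * u i).prod

end Pool.Agent.Y466.LM
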