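import Pool.Agent.Y466.FT.Fam
import Pool.Agent.Y466.RW.Unknot

/-!
# Separation of two families by a filtered set of invariants
-/

set_option autoImplicit false

namespace Pool.Agent.Y466.LM

open Finset Pool.Agent.Y466.FT Pool.Agent.Y466.RW

section
variable {X X' : Type}

/-- Separation by a pair of functions of order at most `n`. -/
def Sp (V : ℕ → Set ((X → ℚ) × (X' → ℚ))) (n : ℕ) (x : X) (x' : X') : Prop :=
  ∃ v ∈ V n, v.1 x ≠ v.2 x'

variable {V : ℕ → Set ((X → ℚ) × (X' → ℚ))}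

/-! ### Families with integer parameters -/

section
variable {k k' : ℕ} {D : (Fin k → ℤ) → X} {D' : (Fin k' → ℤ) → X'}

theorem poly_pair (hD : ∀ n, ∀ v ∈ V n, PD (n + 1) (fun q => v.1 (D q)))
    (hD' : ∀ n, ∀ v ∈ V n, PD (n + 1) (fun q => v.2 (D' q))) {n : ℕ} {v : (X → ℚ) × (X' → ℚ)}
    (hv : v ∈ V n) : ∃ R : MvPolynomial (Fin k ⊕ Fin k') ℚ, R.totalDegree ≤ n ∧
      ∀ q q', MvPolynomial.eval (Sum.elim (fun i => (q i : ℚ)) fun i => (q' i : ℚ)) R =
        v.1 (D q) - v.2 (D' q') := by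
  obtain ⟨P, hP, hP'⟩ := exists_poly k n _ (hD n v hv)
  obtain ⟨Q, hQ, hQ'⟩ := exists_poly k' n _ (hD' n v hv)
  refine ⟨MvPolynomial.rename Sum.inl P - MvPolynomial.rename Sum.inr Q, ?_, fun q q' => ?_⟩
  · refine (MvPolynomial.totalDegree_sub _ _).trans (max_le ?_ ?_)
    · exact (MvPolynomial.totalDegree_rename_le _ _).trans hP
    · exact (MvPolynomial.totalDegree_rename_le _ _).trans hQ
  · rw [map_sub, MvPolynomial.eval_rename, MvPolynomial.eval_rename, hP', hQ']
    rfl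

theorem locus (mono : ∀ m n, m ≤ n → V m ⊆ V n)
    (hD : ∀ n, ∀ v ∈ V n, PD (n + 1) (fun q => v.1 (D q)))
    (hD' : ∀ n, ∀ v ∈ V n, PD (n + 1) (fun q => v.2 (D' q))) :
    ∃ (d : ℕ) (P : MvPolynomial (Fin k ⊕ Fin k') ℚ), ∀ q q',
      (MvPolynomial.eval (Sum.elim (fun i => (q i : ℚ)) fun i => (q' i : ℚ)) P = 0 ↔
        ¬ Sp V d (D q) (D' q')) ∧ (Sp V d (D q) (D' q') ↔ ∃ n, Sp V n (D q) (D' q')) := by
  obtain ⟨d, P, h⟩ := exists_locus (fun n => {R : MvPolynomial (Fin k ⊕ Fin k') ℚ |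
      ∃ v ∈ V n, ∀ q q', MvPolynomial.eval (Sum.elim (fun i => (q i : ℚ)) fun i => (q' i : ℚ)) R =
        v.1 (D q) - v.2 (D' q')}) (by
    rintro m n hmn R ⟨v, h1, h3⟩
    exact ⟨v, mono _ _ hmn h1, h3⟩)
  have key : ∀ q q', (∀ n, ¬ Sp V n (D q) (D' q')) ↔ ¬ Sp V d (D q) (D' q') := by
    intro q q'
    refine ⟨fun h1 => h1 d, fun h1 n => ?_⟩
    rintro ⟨v, hv, hne⟩
    obtain ⟨R, _, hR⟩ := poly_pair hD hD' hv
    have h2 := (h (Sum.elim (fun i => (q i : ℚ)) fun i => (q' i : ℚ))).2 (by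
      rintro R ⟨v', hv', hR'⟩
      rw [hR' q q']
      by_contra h3
      exact h1 ⟨v', hv', fun h4 => h3 (sub_eq_zero.2 h4)⟩)
    have h3 := (h _).1 h2 n R ⟨v, hv, hR⟩
    rw [hR] at h3
    exact hne (sub_eq_zero.1 h3)
  refine ⟨d, P, fun q q' => ⟨⟨fun h1 => ?_, fun h1 => ?_⟩, ⟨fun h1 => ⟨d, h1⟩, fun ⟨n, h1⟩ => ?_⟩⟩⟩
  · rintro ⟨v, hv, hne⟩
    obtain ⟨R, _, hR⟩ := poly_pair hD hD' hv
    have h3 := (h _).1 h1 d R ⟨v, hv, hR⟩
    rw [hR] at h3
    exact hne (sub_eq_zero.1 h3)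
  · refine (h _).2 ?_
    rintro R ⟨v', hv', hR'⟩
    rw [hR' q q']
    by_contra h3
    exact h1 ⟨v', hv', fun h4 => h3 (sub_eq_zero.2 h4)⟩
  · by_contra h2
    exact (key q q').2 h2 n h1

/-- **Zariski density.** -/
theorem dense (mono : ∀ m n, m ≤ n → V m ⊆ V n)
    (hD : ∀ n, ∀ v ∈ V n, PD (n + 1) (fun q => v.1 (D q)))
    (hD' : ∀ n, ∀ v ∈ V n, PD (n + 1) (fun q => v.2 (D' q)))
    (S : Set ((Fin k → ℤ) × (Fin k' → ℤ)))
    (hS : ∀ R : MvPolynomial (Fin k ⊕ Fin k') ℚ, (∀ z ∈ S, MvPolynomial.eval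
      (Sum.elim (fun i => (z.1 i : ℚ)) fun i => (z.2 i : ℚ)) R = 0) → R = 0)
    (h : ∀ z ∈ S, ∀ n, ¬ Sp V n (D z.1) (D' z.2)) (q : Fin k → ℤ) (q' : Fin k' → ℤ) (n : ℕ) :
    ¬ Sp V n (D q) (D' q') := by
  obtain ⟨d, P, hP⟩ := locus mono hD hD'
  have h0 : P = 0 := hS P fun z hz => (hP _ _).1.2 (h z hz d)
  intro hs
  have h1 := (hP q q').2.2 ⟨n, hs⟩
  exact (hP q q').1.1 (by rw [h0, map_zero]) h1

open Finset Classical in
/-- **Zero-one law.** -/
theorem zero_one (hD : ∀ n, ∀ v ∈ V n, PD (n + 1) (fun q => v.1 (D q)))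
    (hD' : ∀ n, ∀ v ∈ V n, PD (n + 1) (fun q => v.2 (D' q))) {n : ℕ} {q₀ : Fin k → ℤ}
    {q₀' : Fin k' → ℤ} (h : Sp V n (D q₀) (D' q₀')) (A : Fin k → Finset ℤ) (B : Fin k' → Finset ℤ)
    (M : ℕ) (hA : ∀ i, M ≤ (A i).card) (hB : ∀ i, M ≤ (B i).card) :
    M * #{z ∈ Fintype.piFinset A ×ˢ Fintype.piFinset B | ¬ Sp V n (D z.1) (D' z.2)} ≤
      n * ((∏ i, (A i).card) * ∏ i, (B i).card) := by
  obtain ⟨v, hv, hne⟩ := h
  obtain ⟨R, hR, hR'⟩ := poly_pair hD hD' hv
  set R' := MvPolynomial.rename finSumFinEquiv R with hR1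
  have hev : ∀ q q', MvPolynomial.eval (fun i => ((Fin.append q q' : Fin (k + k') → ℤ) i : ℚ)) R' =
      v.1 (D q) - v.2 (D' q') := by
    intro q q'
    rw [hR1, MvPolynomial.eval_rename, ← hR' q q']
    congr 2
    funext i
    cases i with
    | inl i => simp
    | inr i => simp
  have hR0 : R' ≠ 0 := by
    intro h0
    have := hev q₀ q₀'
    rw [h0, map_zero] at this
    exact hne (sub_eq_zero.1 this.symm)
  have hn' : R'.totalDegree ≤ n := (MvPolynomial.totalDegree_rename_le _ _).trans hR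
  have h1 := count_zeros hR0 hn' (Fin.append A B) M (fun i => by
    refine Fin.addCases (fun i => ?_) (fun i => ?_) i
    · rw [Fin.append_left]; exact hA i
    · rw [Fin.append_right]; exact hB i)
  have e : ∏ i, (Fin.append A B i).card = (∏ i, (A i).card) * ∏ i, (B i).card := by
    rw [Fin.prod_univ_add]
    simp
  rw [e] at h1
  refine le_trans (Nat.mul_le_mul_left _ ?_) h1
  refine Finset.card_le_card_of_injOn (fun z => Fin.append z.1 z.2) (fun z hz => ?_)
    (fun z _ z' _ h => ?_)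
  · obtain ⟨h2, h3⟩ := Finset.mem_filter.1 (Finset.mem_coe.1 hz)
    obtain ⟨h4, h5⟩ := Finset.mem_product.1 h2
    refine Finset.mem_coe.2 (Finset.mem_filter.2 ⟨Fintype.mem_piFinset.2 fun i => ?_, ?_⟩)
    · refine Fin.addCases (fun i => ?_) (fun i => ?_) i
      · show Fin.append z.1 z.2 (Fin.castAdd k' i) ∈ _
        rw [Fin.append_left, Fin.append_left]; exact Fintype.mem_piFinset.1 h4 i
      · show Fin.append z.1 z.2 (Fin.natAdd k i) ∈ _
        rw [Fin.append_right, Fin.append_right]; exact Fintype.mem_piFinset.1 h5 i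
    · rw [hev]
      by_contra h6
      exact h3 ⟨v, hv, fun h7 => h6 (sub_eq_zero.2 h7)⟩
  · have h2 : ∀ i, z.1 i = z'.1 i := fun i => by
      have := congrFun h (Fin.castAdd k' i)
      simpa using this
    have h3 : ∀ i, z.2 i = z'.2 i := fun i => by
      have := congrFun h (Fin.natAdd k i)
      simpa using this
    exact Prod.ext (funext h2) (funext h3)

end

/-! ### Families indexed by words -/

section
variable {L L' : Type} [Fintype L] [DecidableEq L] [Fintype L'] [DecidableEq L']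
  {D : FreeMonoid L → X} {D' : FreeMonoid L' → X'}

/-- No value is taken too often. -/
theorem value {A : Type} [AddCommGroup A] [DecidableEq A]
    (htf : ∀ (n : ℕ) (a : A), n ≠ 0 → n • a = 0 → a = 0) {n : ℕ} {f : FreeMonoid L → A}
    (hf : Dg (LE L) (n + 1) f) {w₀ w₁ : FreeMonoid L} (h₀ : f w₀ ≠ f w₁) (N : ℕ) (c : A) :
    (#{w : Fin N → Option L | f (ev w) = c} : ℝ) ≤
      bb (Fintype.card (Option L)) n N * (Fintype.card (Option L) : ℝ) ^ N := by
  obtain ⟨w, hw⟩ : ∃ w, f w ≠ f 1 := by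
    by_contra hcon
    push Not at hcon
    exact h₀ (by rw [hcon, hcon w₁])
  have := poly_count n htf f hf w hw N c
  convert this

open Classical in
theorem pair_count (hD : ∀ n, ∀ v ∈ V n, Dg (LE L) (n + 1) (fun w => v.1 (D w)))
    (hD' : ∀ n, ∀ v ∈ V n, Dg (LE L') (n + 1) (fun w => v.2 (D' w))) {n : ℕ} {w₀ : FreeMonoid L}
    {w₀' : FreeMonoid L'} (h : Sp V n (D w₀) (D' w₀')) (N N' : ℕ) :
    (#{z : (Fin N → Option L) × (Fin N' → Option L') |
      ¬ Sp V n (D (ev z.1)) (D' (ev z.2))} : ℝ) ≤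
      (bb (Fintype.card (Option L)) n N + bb (Fintype.card (Option L')) n N') *
      ((Fintype.card (Option L) : ℝ) ^ N * (Fintype.card (Option L') : ℝ) ^ N') := by
  obtain ⟨v, hv, hne⟩ := h
  have hX : (0 : ℝ) < Fintype.card (Option L) := by exact_mod_cast Fintype.card_pos
  have hX' : (0 : ℝ) < Fintype.card (Option L') := by exact_mod_cast Fintype.card_pos
  have h0 : (#{z : (Fin N → Option L) × (Fin N' → Option L') |
      ¬ Sp V n (D (ev z.1)) (D' (ev z.2))} : ℝ) ≤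
      #{z : (Fin N → Option L) × (Fin N' → Option L') | v.1 (D (ev z.1)) = v.2 (D' (ev z.2))} := by
    have := card_le_card (s := univ.filter fun z : (Fin N → Option L) × (Fin N' → Option L') =>
      ¬ Sp V n (D (ev z.1)) (D' (ev z.2))) (t := univ.filter fun z :
        (Fin N → Option L) × (Fin N' → Option L') => v.1 (D (ev z.1)) = v.2 (D' (ev z.2)))
      (fun z hz => by
        rw [mem_filter] at hz ⊢
        refine ⟨hz.1, ?_⟩
        by_contra hcon
        exact hz.2 ⟨v, hv, hcon⟩)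
    exact_mod_cast this
  refine h0.trans ?_
  have hb := bb_nonneg hX.le n N
  have hb' := bb_nonneg hX'.le n N'
  by_cases hc : ∃ w₁, v.1 (D w₁) ≠ v.1 (D w₀)
  · obtain ⟨w₁, hw₁⟩ := hc
    have e1 : ((#{z : (Fin N → Option L) × (Fin N' → Option L') |
        v.1 (D (ev z.1)) = v.2 (D' (ev z.2))} : ℕ) : ℝ) =
        ∑ z' : Fin N' → Option L', ((#{z : Fin N → Option L |
          v.1 (D (ev z)) = v.2 (D' (ev z'))} : ℕ) : ℝ) := by
      rw [card_filter, Fintype.sum_prod_type, sum_comm]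
      push_cast
      refine sum_congr rfl fun z _ => ?_
      rw [card_filter]
      push_cast
      rfl
    rw [e1]
    refine (sum_le_sum fun z' _ => value (f := fun w => v.1 (D w)) tf_rat (hD n v hv) hw₁ N _).trans ?_
    rw [sum_const, card_univ, Fintype.card_fun, Fintype.card_fin, nsmul_eq_mul]
    push_cast
    rw [add_mul]
    refine le_trans (le_of_eq ?_) (le_add_of_nonneg_right (by positivity))
    ring
  · by_cases hc' : ∃ w₁, v.2 (D' w₁) ≠ v.2 (D' w₀')
    · obtain ⟨w₁, hw₁⟩ := hc'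
      have e1 : ((#{z : (Fin N → Option L) × (Fin N' → Option L') |
          v.1 (D (ev z.1)) = v.2 (D' (ev z.2))} : ℕ) : ℝ) =
          ∑ z : Fin N → Option L, ((#{z' : Fin N' → Option L' |
            v.2 (D' (ev z')) = v.1 (D (ev z))} : ℕ) : ℝ) := by
        rw [card_filter, Fintype.sum_prod_type]
        push_cast
        refine sum_congr rfl fun z _ => ?_
        rw [card_filter]
        push_cast
        refine sum_congr rfl fun z' _ => ?_
        simp only [eq_comm]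
      rw [e1]
      refine (sum_le_sum fun z _ => value (f := fun w => v.2 (D' w)) tf_rat (hD' n v hv) hw₁ N'
        _).trans ?_
      rw [sum_const, card_univ, Fintype.card_fun, Fintype.card_fin, nsmul_eq_mul]
      push_cast
      rw [add_mul]
      refine le_trans (le_of_eq ?_) (le_add_of_nonneg_left (by positivity))
      ring
    · push Not at hc hc'
      have e1 : (univ.filter fun z : (Fin N → Option L) × (Fin N' → Option L') =>
          v.1 (D (ev z.1)) = v.2 (D' (ev z.2))) = ∅ := by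
        rw [filter_eq_empty_iff]
        intro z _ hz
        rw [hc, hc'] at hz
        exact hne hz
      rw [e1, card_empty]
      push_cast
      exact mul_nonneg (add_nonneg hb hb') (by positivity)

open Classical in
theorem one_count (hD : ∀ n, ∀ v ∈ V n, Dg (LE L) (n + 1) (fun w => v.1 (D w)))
    {K : X'} {n : ℕ} {w₀ : FreeMonoid L} (h : Sp V n (D w₀) K) (N : ℕ) :
    (#{w : Fin N → Option L | ¬ Sp V n (D (ev w)) K} : ℝ) ≤
      bb (Fintype.card (Option L)) n N * (Fintype.card (Option L) : ℝ) ^ N := by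
  obtain ⟨v, hv, hne⟩ := h
  have hX : (0 : ℝ) < Fintype.card (Option L) := by exact_mod_cast Fintype.card_pos
  have h0 : (#{w : Fin N → Option L | ¬ Sp V n (D (ev w)) K} : ℝ) ≤
      #{w : Fin N → Option L | v.1 (D (ev w)) = v.2 K} := by
    have := card_le_card (s := univ.filter fun w : Fin N → Option L =>
      ¬ Sp V n (D (ev w)) K) (t := univ.filter fun w : Fin N → Option L =>
        v.1 (D (ev w)) = v.2 K)
      (fun z hz => by
        rw [mem_filter] at hz ⊢
        refine ⟨hz.1, ?_⟩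
        by_contra hcon
        exact hz.2 ⟨v, hv, hcon⟩)
    exact_mod_cast this
  refine h0.trans ?_
  by_cases hc : ∃ w₁, v.1 (D w₁) ≠ v.1 (D w₀)
  · obtain ⟨w₁, hw₁⟩ := hc
    exact value (f := fun w => v.1 (D w)) tf_rat (hD n v hv) hw₁ N _
  · push Not at hc
    have e1 : (univ.filter fun w : Fin N → Option L => v.1 (D (ev w)) = v.2 K) = ∅ := by
      rw [filter_eq_empty_iff]
      intro z _ hz
      rw [hc] at hz
      exact hne hz
    rw [e1, card_empty]
    push_cast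
    exact mul_nonneg (bb_nonneg hX.le _ _) (by positivity)

open Classical in
theorem rigid (hD : ∀ n, ∀ v ∈ V n, Dg (LE L) (n + 1) (fun w => v.1 (D w))) {K : X'}
    (h : ∃ δ : ℝ, 0 < δ ∧ ∀ N₀ : ℕ, ∃ N ≥ N₀, δ * (Fintype.card (Option L) : ℝ) ^ N ≤
      #{w : Fin N → Option L | ∀ n, ¬ Sp V n (D (ev w)) K}) (w : FreeMonoid L) (n : ℕ) :
    ¬ Sp V n (D w) K := by
  intro hs
  obtain ⟨δ, hδ, h⟩ := h
  have hX : (0 : ℝ) < Fintype.card (Option L) := by exact_mod_cast Fintype.card_pos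
  have h1 := (bb_tendsto (Fintype.card (Option L)) n).eventually (gt_mem_nhds hδ)
  obtain ⟨N₀, hN₀⟩ := Filter.eventually_atTop.1 h1
  obtain ⟨N, hN, hc⟩ := h N₀
  have h2 := one_count hD hs N
  have h3 : (#{w : Fin N → Option L | ∀ n, ¬ Sp V n (D (ev w)) K} : ℝ) ≤
      #{w : Fin N → Option L | ¬ Sp V n (D (ev w)) K} := by
    have := card_le_card (s := univ.filter fun w : Fin N → Option L =>
      ∀ n, ¬ Sp V n (D (ev w)) K) (t := univ.filter fun w : Fin N → Option L =>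
        ¬ Sp V n (D (ev w)) K)
      (fun z hz => by
        rw [mem_filter] at hz ⊢
        exact ⟨hz.1, hz.2 n⟩)
    exact_mod_cast this
  have h4 : δ * (Fintype.card (Option L) : ℝ) ^ N ≤
    bb (Fintype.card (Option L)) n N * (Fintype.card (Option L) : ℝ) ^ N := (hc.trans h3).trans h2
  have h5 := le_of_mul_le_mul_right h4 (by positivity)
  exact absurd (hN₀ N hN) (not_lt.2 h5)

end

end

end Pool.Agent.Y466.LM
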