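import Pool.Agent.Y466.LM.Gen
import Pool.Agent.Y466.LM.Alg
import Pool.Agent.Y466.RW.Main

/-!
# Finite type invariants of homology spheres on families and on random products
-/

set_option autoImplicit false

namespace Pool.Agent.Y466.LM

open Finset Pool.Agent.Y466.FT Pool.Agent.Y466.RW

theorem alt_map {g : ℕ} {A : Type} [AddCommGroup A] (f : MulAut (Fg g) → A) (l : List (Tor g))
    (φ : Tor g) : alt (fun x : Tor g => f x) l φ = alt f (l.map fun x : Tor g => (x : MulAut (Fg g))) φ := by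
  induction l generalizing φ with
  | nil => rfl
  | cons t l ih =>
    show alt _ l φ - alt _ l (φ * t) = alt f _ (φ : MulAut (Fg g)) - alt f _ ((φ : MulAut (Fg g)) * t)
    rw [ih, ih]
    rfl

theorem altZ_of {A : Type} [AddCommGroup A] {n : ℕ} {v : ∀ g : ℕ, MulAut (Fg g) → A}
    (h : DegreeLE n v) (g : ℕ) : AltZ (n + 1) (fun x : Tor g => v g x) := by
  intro l φ hl
  rw [alt_map]
  refine h g φ φ.2 _ (fun t ht => ?_) (by rw [List.length_map, hl])
  obtain ⟨x, _, rfl⟩ := List.mem_map.1 ht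
  exact x.2

theorem DegreeLE.mono {A : Type} [AddCommGroup A] {m n : ℕ} (hmn : m ≤ n)
    {v : ∀ g : ℕ, MulAut (Fg g) → A} (h : DegreeLE m v) : DegreeLE n v := by
  induction hmn with
  | refl => exact h
  | step _ ih =>
    intro g φ hφ l hl hn
    cases l with
    | nil => simp at hn
    | cons t l =>
      show alt _ l φ - alt _ l (φ * t) = 0
      have h1 : ∀ s ∈ l, s ∈ Tor g := fun s hs => hl s (List.mem_cons_of_mem _ hs)
      have h2 : t ∈ Tor g := hl t List.mem_cons_self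
      rw [ih g φ hφ l h1 (by simpa using hn), ih g _ (mul_mem hφ h2) l h1 (by simpa using hn),
        sub_zero]

/-- The pairs of functions given by the invariants. -/
def Vn (g g' : ℕ) (n : ℕ) : Set ((Tor g → ℚ) × (Tor g' → ℚ)) :=
  {p | ∃ v : ∀ g : ℕ, MulAut (Fg g) → ℚ, IsInvariant v ∧ DegreeLE n v ∧
    p = ((fun φ : Tor g => v g φ), (fun φ : Tor g' => v g' φ))}

theorem Vn_mono {g g' m n : ℕ} (h : m ≤ n) : Vn g g' m ⊆ Vn g g' n := by
  rintro p ⟨v, h1, h2, h3⟩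
  exact ⟨v, h1, h2.mono h, h3⟩

theorem sep_iff {g g' n : ℕ} (φ : Tor g) (ψ : Tor g') :
    Separated n (φ : MulAut (Fg g)) (ψ : MulAut (Fg g')) ↔ Sp (Vn g g') n φ ψ := by
  constructor
  · rintro ⟨v, h1, h2, h3⟩
    exact ⟨_, ⟨v, h1, h2, rfl⟩, h3⟩
  · rintro ⟨_, ⟨v, h1, h2, rfl⟩, h3⟩
    exact ⟨v, h1, h2, h3⟩

section
variable {g g' k k' : ℕ}

theorem fam_pd {A : Type} [AddCommGroup A] {n : ℕ} {v : ∀ g : ℕ, MulAut (Fg g) → A}
    (h : DegreeLE n v) (u₀ : Tor g) (t u : Fin k → Tor g) :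
    PD (n + 1) (fun q => v g (fam u₀ t u q : Tor g)) :=
  pd_fam (altZ_of h g) u₀ t u

theorem fam_fst (u₀ : Tor g) (t u : Fin k → Tor g) (n : ℕ) (v : (Tor g → ℚ) × (Tor g' → ℚ))
    (hv : v ∈ Vn g g' n) : PD (n + 1) (fun q => v.1 (fam u₀ t u q)) := by
  obtain ⟨v, _, h, rfl⟩ := hv
  exact fam_pd h u₀ t u

theorem fam_snd (u₀ : Tor g') (t u : Fin k → Tor g') (n : ℕ) (v : (Tor g → ℚ) × (Tor g' → ℚ))
    (hv : v ∈ Vn g g' n) : PD (n + 1) (fun q => v.2 (fam u₀ t u q)) := by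
  obtain ⟨v, _, h, rfl⟩ := hv
  exact fam_pd h u₀ t u

theorem fam_simplex (u₀ : Tor g) (t u : Fin k → Tor g) (u₀' : Tor g') (t' u' : Fin k' → Tor g')
    {A : Type} [AddCommGroup A] {n : ℕ} {v : ∀ g : ℕ, MulAut (Fg g) → A} (h : DegreeLE n v)
    (a : Fin k → ℤ) (a' : Fin k' → ℤ)
    (hs : ∀ q q', a ≤ q → a' ≤ q' → ∑ i, (q i - a i) + ∑ i, (q' i - a' i) ≤ n →
      v g (fam u₀ t u q : Tor g) = v g' (fam u₀' t' u' q' : Tor g'))
    (q : Fin k → ℤ) (q' : Fin k' → ℤ) :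
    v g (fam u₀ t u q : Tor g) = v g' (fam u₀' t' u' q' : Tor g') := by
  have h1 : PD (n + 1) (fun q : Fin k ⊕ Fin k' → ℤ => v g (fam u₀ t u (q ∘ Sum.inl) : Tor g) -
      v g' (fam u₀' t' u' (q ∘ Sum.inr) : Tor g')) :=
    ((fam_pd h u₀ t u).comp Sum.inl Sum.inl_injective).sub
      ((fam_pd h u₀' t' u').comp Sum.inr Sum.inr_injective)
  have := PD.simplex h1 (Sum.elim a a') (fun q hq hs' => ?_) (Sum.elim q q')
  · exact sub_eq_zero.1 this
  · refine sub_eq_zero.2 (hs _ _ (fun i => hq (Sum.inl i)) (fun i => hq (Sum.inr i)) ?_)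
    rw [Fintype.sum_sum_type] at hs'
    exact hs'

variable {L L' : Type}

theorem wk_dg {A : Type} [AddCommGroup A] {n : ℕ} {v : ∀ g : ℕ, MulAut (Fg g) → A}
    (h : DegreeLE n v) (u₀ : Tor g) (u : Fin k → Tor g) (x : L → Fin k → Tor g) :
    Dg (LE L) (n + 1) (fun w => v g (wk u₀ u x w : Tor g)) :=
  dg_wk (altZ_of h g) u₀ u x

theorem wk_fst (u₀ : Tor g) (u : Fin k → Tor g) (x : L → Fin k → Tor g) (n : ℕ)
    (v : (Tor g → ℚ) × (Tor g' → ℚ)) (hv : v ∈ Vn g g' n) :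
    Dg (LE L) (n + 1) (fun w => v.1 (wk u₀ u x w)) := by
  obtain ⟨v, _, h, rfl⟩ := hv
  exact wk_dg h u₀ u x

theorem wk_snd (u₀ : Tor g') (u : Fin k → Tor g') (x : L → Fin k → Tor g') (n : ℕ)
    (v : (Tor g → ℚ) × (Tor g' → ℚ)) (hv : v ∈ Vn g g' n) :
    Dg (LE L) (n + 1) (fun w => v.2 (wk u₀ u x w)) := by
  obtain ⟨v, _, h, rfl⟩ := hv
  exact wk_dg h u₀ u x

/-- A test for functions on words. -/
theorem word_test {A : Type} [AddCommGroup A] {n : ℕ} {f : FreeMonoid L → A}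
    (hf : Dg (LE L) (n + 1) f) (c : A) (h : ∀ w : Fin n → Option L, f (ev w) = c)
    (w : FreeMonoid L) : f w = c := by
  have h2 : Dg (LE L) (n + 1) (fun _ => c) := by
    rintro e ⟨s, rfl⟩ a
    simp only [sub_self]
    exact Dg.zero n
  have h3 := dg_short (hf.sub h2) (fun w hw => by
    obtain ⟨z, rfl⟩ := exists_ev (n := n) w (Nat.lt_succ_iff.1 hw)
    rw [h z, sub_self]) w
  exact sub_eq_zero.1 h3

theorem word_test_pair {A : Type} [AddCommGroup A] {n : ℕ} {f : FreeMonoid L → A}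
    {f' : FreeMonoid L' → A} (hf : Dg (LE L) (n + 1) f) (hf' : Dg (LE L') (n + 1) f')
    (h : ∀ (w : Fin n → Option L) (w' : Fin n → Option L'), f (ev w) = f' (ev w'))
    (w : FreeMonoid L) (w' : FreeMonoid L') : f w = f' w' := by
  obtain ⟨z, hz⟩ := exists_ev (L := L) (n := n) 1 (Nat.zero_le _)
  obtain ⟨z', hz'⟩ := exists_ev (L := L') (n := n) 1 (Nat.zero_le _)
  have h1 := word_test hf (f' (ev z')) (fun y => h y z') w
  have h2 := word_test hf' (f (ev z)) (fun y => (h z y).symm) w'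
  rw [h1, h2, ← h z z']

end

end Pool.Agent.Y466.LM
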