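import Pool.Agent.Y466.LM.Defs

/-!
# Random products of Torelli elements: definitions
-/

set_option autoImplicit false

namespace Pool.Agent.Y466.LM

/-- Each letter `s` of the alphabet `L` stands for `k` elements `x s 0, …, x s (k - 1)` of the
Torelli group of genus `g`, which are inserted into the product `u₀ · u_0 · … · u_{k-1}`. -/
structure Walk (L : Type) (g : ℕ) where
  k : ℕ
  u₀ : Tor g
  u : Fin k → Tor g
  x : L → Fin k → Tor g

/-- The element `u₀ x_0(w) u_0 ⋯ x_{k-1}(w) u_{k-1}` of the Torelli group, for a word `w` of length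
`N` in the alphabet `L ∪ {∅}` (`none` is the empty letter). -/
def Walk.at {L : Type} {g : ℕ} (W : Walk L g) {N : ℕ} (w : Fin N → Option L) : MulAut (Fg g) :=
  (walk W.u₀ W.u W.x w).1

open Classical in
/-- The proportion of the elements of a finite set which have the property `p`. -/
noncomputable def Prob {α : Type} [Fintype α] (p : α → Prop) : ℝ :=
  (Finset.univ.filter p).card / Fintype.card α

/-- The number `3 ((r + 1)/(N + 1))^(1/2^n)`, `r` the number of letters. -/
noncomputable def rate (L : Type) [Fintype L] (n N : ℕ) : ℝ :=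
  3 * (((Fintype.card L : ℝ) + 1) / (N + 1)) ^ ((1 / 2 : ℝ) ^ n)

end Pool.Agent.Y466.LM
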