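import Pool.Agent.Y466.LM.WDefs
import Pool.Agent.Y466.LM.Main

/-!
# Random products of Torelli elements
-/

set_option autoImplicit false
set_option linter.unusedSectionVars false

namespace Pool.Agent.Y466.LM

open Finset Pool.Agent.Y466.FT Pool.Agent.Y466.RW

open Classical in
theorem Prob_le {L : Type} [Fintype L] {N : ℕ} {p : (Fin N → Option L) → Prop} {e : ℝ}
    (h : (#{w : Fin N → Option L | p w} : ℝ) ≤ e * (Fintype.card (Option L) : ℝ) ^ N) :
    Prob p ≤ e := by
  unfold Prob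
  have h1 : ((Fintype.card (Fin N → Option L) : ℕ) : ℝ) = (Fintype.card (Option L) : ℝ) ^ N := by
    rw [Fintype.card_fun, Fintype.card_fin]
    push_cast
    rfl
  have hX : (0 : ℝ) < (Fintype.card (Option L) : ℝ) ^ N :=
    pow_pos (by exact_mod_cast Fintype.card_pos) _
  rw [h1, div_le_iff₀ hX]
  exact h

open Classical in
theorem Prob_le' {L L' : Type} [Fintype L] [Fintype L'] {N N' : ℕ}
    {p : (Fin N → Option L) × (Fin N' → Option L') → Prop} {e : ℝ}
    (h : (#{z : (Fin N → Option L) × (Fin N' → Option L') | p z} : ℝ) ≤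
      e * ((Fintype.card (Option L) : ℝ) ^ N * (Fintype.card (Option L') : ℝ) ^ N')) :
    Prob p ≤ e := by
  unfold Prob
  have h1 : ((Fintype.card ((Fin N → Option L) × (Fin N' → Option L')) : ℕ) : ℝ) =
      (Fintype.card (Option L) : ℝ) ^ N * (Fintype.card (Option L') : ℝ) ^ N' := by
    rw [Fintype.card_prod, Fintype.card_fun, Fintype.card_fin, Fintype.card_fun, Fintype.card_fin]
    push_cast
    rfl
  have hX : (0 : ℝ) < (Fintype.card (Option L) : ℝ) ^ N * (Fintype.card (Option L') : ℝ) ^ N' :=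
    mul_pos (pow_pos (by exact_mod_cast Fintype.card_pos) _)
      (pow_pos (by exact_mod_cast Fintype.card_pos) _)
  rw [h1, div_le_iff₀ hX]
  exact h

theorem rate_eq (L : Type) [Fintype L] (n N : ℕ) :
    rate L n N = bb ((Fintype.card (Option L) : ℕ) : ℝ) n N := by
  unfold rate bb
  rw [Fintype.card_option]
  push_cast
  rfl

section
variable {L L' : Type} [Fintype L] [Fintype L'] {g g' : ℕ} (W : Walk L g) (W' : Walk L' g')

theorem at_eq {N : ℕ} (w : Fin N → Option L) :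
    W.at w = (wk W.u₀ W.u W.x (ev w) : Tor g) := by
  unfold Walk.at
  rw [walk_eq]

theorem anti {A : Type} [AddCommGroup A] (htf : ∀ (n : ℕ) (a : A), n ≠ 0 → n • a = 0 → a = 0)
    {n : ℕ} {v : ∀ g : ℕ, MulAut (Fg g) → A} (hn : DegreeLE n v) {N₀ N₁ : ℕ}
    (w₀ : Fin N₀ → Option L) (w₁ : Fin N₁ → Option L) (hne : v g (W.at w₀) ≠ v g (W.at w₁)) (N : ℕ)
    (c : A) : Prob (fun w : Fin N → Option L => v g (W.at w) = c) ≤ rate L n N := by
  classical
  rw [rate_eq]
  refine Prob_le ?_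
  simp only [at_eq] at hne ⊢
  have := value htf (wk_dg hn W.u₀ W.u W.x) hne N c
  convert this

theorem zo {n N₀ N₀' : ℕ} (w₀ : Fin N₀ → Option L) (w₀' : Fin N₀' → Option L')
    (hs : Separated n (W.at w₀) (W'.at w₀')) (N N' : ℕ) :
    Prob (fun z : (Fin N → Option L) × (Fin N' → Option L') =>
      ¬ Separated n (W.at z.1) (W'.at z.2)) ≤ rate L n N + rate L' n N' := by
  classical
  rw [rate_eq, rate_eq]
  refine Prob_le' ?_
  simp only [at_eq, sep_iff] at hs ⊢
  have := pair_count (wk_fst (g' := g') W.u₀ W.u W.x) (wk_snd (g := g) W'.u₀ W'.u W'.x) hs N N'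
  convert this

theorem oneS {n N₀ : ℕ} (ψ : Tor g') (w₀ : Fin N₀ → Option L) (hs : Separated n (W.at w₀) ψ.1)
    (N : ℕ) : Prob (fun w : Fin N → Option L => ¬ Separated n (W.at w) ψ.1) ≤ rate L n N := by
  classical
  rw [rate_eq]
  refine Prob_le ?_
  simp only [at_eq, sep_iff] at hs ⊢
  have := one_count (wk_fst (g' := g') W.u₀ W.u W.x) hs N
  convert this

theorem rigidS (ψ : Tor g') {δ : ℝ} (hδ : 0 < δ)
    (h : ∀ N₀ : ℕ, ∃ N ≥ N₀, δ ≤ Prob (fun w : Fin N → Option L => ∀ n, ¬ Separated n (W.at w) ψ.1))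
    {N : ℕ} (w : Fin N → Option L) (n : ℕ) : ¬ Separated n (W.at w) ψ.1 := by
  classical
  rw [at_eq, sep_iff]
  refine rigid (wk_fst (g' := g') W.u₀ W.u W.x) ⟨δ, hδ, fun N₀ => ?_⟩ (ev w) n
  obtain ⟨N, hN, h1⟩ := h N₀
  refine ⟨N, hN, ?_⟩
  unfold Prob at h1
  have h2 : ((Fintype.card (Fin N → Option L) : ℕ) : ℝ) = (Fintype.card (Option L) : ℝ) ^ N := by
    rw [Fintype.card_fun, Fintype.card_fin]
    push_cast
    rfl
  have hX : (0 : ℝ) < (Fintype.card (Option L) : ℝ) ^ N :=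
    pow_pos (by exact_mod_cast Fintype.card_pos) _
  rw [h2, le_div_iff₀ hX] at h1
  simp only [at_eq, sep_iff] at h1
  convert h1

theorem testS {A : Type} [AddCommGroup A] {n : ℕ} {v : ∀ g : ℕ, MulAut (Fg g) → A}
    (hn : DegreeLE n v) (ht : ∀ (w : Fin n → Option L) (w' : Fin n → Option L'),
      v g (W.at w) = v g' (W'.at w')) {N N' : ℕ} (w : Fin N → Option L)
    (w' : Fin N' → Option L') : v g (W.at w) = v g' (W'.at w') := by
  simp only [at_eq] at ht ⊢
  exact word_test_pair (wk_dg hn W.u₀ W.u W.x) (wk_dg hn W'.u₀ W'.u W'.x) ht _ _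

end

end Pool.Agent.Y466.LM
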